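import Pool.Agent.W_4481e3_q59.ConsumerPQ
import Pool.Agent.W_4481e3_h66.Corner

/-!
Consumer of the flat certificate: a family whose slopes at the phase `q` are eventually at most `A`
satisfies the second order bound of the period certificate, does not stay in the corner, hence is
killed.  Consequence: infinitely often the slope at the phase `1` is at least `A`.
-/

open Filter Topology Set

namespace Pool.Agent.W_4481e3_h41

open Pool.Agent.W_4481e3_q42 Pool.Agent.W_4481e3_h1 Pool.Agent.W_MP_4481e3_an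
open Pool.Agent.W_4481e3_q59
open Pool.Agent.W_MP_4481e3_an.Boot (RFam slope Rem nextC compC compK)
open Pool.Agent.W_4481e3_h6 (cb cb_abs)
open Pool.Agent.W_4481e3_h66 (seq_corner cb_mod cb1 c1_bd)

variable {ε : ℂ} {ρ A K : ℝ} {V : ℕ → ℝ → ℂ} {a0 : ℂ}

/-- **Bounds from the period certificate.** -/
theorem flat_rem (hA : Adm ε) (hF : Fam2 ε ρ A K V) {q : ℕ} (hq : q < 4) {Af h θ : ℝ} {κ β : ℕ → ℝ}
    (hc0 : ∃ B, ∀ t : ℝ, |t| ≤ ρ → ‖V 0 t - V 0 0 - a0 * t‖ ≤ B * t ^ 2)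
    (hh0 : 0 < h) (hθ0 : 0 ≤ θ) (hθ1 : θ < 1) (hκ : 0 < κ 0) (hP : PerQ ε q Af h θ κ β)
    (hev : ∀ᶠ i in atTop, ‖slope (ε ^ 2) b15 V a0 (q + 4 * i)‖ ≤ Af) :
    ∃ i₁ : ℕ, ∀ i ≥ i₁, 16 * h + 1 / 2 ≤ ρ * 2 ^ (q + 4 * i) ∧
      Alive ε (2 ^ q / 15) (V (q + 4 * i) 0) ∧
      (∀ s, |s| ≤ 16 * h → ‖Rem (ε ^ 2) b15 V a0 (q + 4 * i) s‖ ≤ κ 0 * s ^ 2 / 2) ∧
      (∀ j < 4, ‖slope (ε ^ 2) b15 V a0 (q + 4 * i + j)‖ ≤ β j) ∧
      (∀ j, 1 ≤ j → j < 4 → ∀ s, |s| ≤ 2 ^ j * h →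
        ‖Rem (ε ^ 2) b15 V a0 (q + 4 * i + j) s‖ ≤ κ j * s ^ 2 / 2) := by
  classical
  have hρ := hF.pos
  obtain ⟨i₀', hi₀'⟩ := eventually_atTop.1 hev
  obtain ⟨i₀'', hi₀''⟩ : ∃ i : ℕ, 16 * h + 1 / 2 ≤ ρ * 2 ^ i := by
    obtain ⟨i, hi⟩ := pow_unbounded_of_one_lt ((16 * h + 1 / 2) / ρ) (by norm_num : (1:ℝ) < 2)
    rw [div_lt_iff₀ hρ] at hi
    exact ⟨i, by linarith⟩
  set i₀ := max i₀' i₀'' with hi₀
  have hi₀l : i₀' ≤ i₀ := le_max_left _ _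
  have hi₀r : i₀'' ≤ i₀ := le_max_right _ _
  have hwin : ∀ k ≥ q + 4 * i₀, 16 * h + 1 / 2 ≤ ρ * 2 ^ k := by
    intro k hk
    refine hi₀''.trans ?_
    have h1 : (2:ℝ) ^ i₀'' ≤ 2 ^ k := pow_le_pow_right₀ (by norm_num) (by omega)
    nlinarith
  have halive0 : ∀ k ≥ q + 4 * i₀, Alive ε (2 ^ (k % 4) / 15) (V k 0) := by
    intro k hk
    have hD : Dm ρ k 0 := by
      unfold Dm
      rw [abs_zero, zero_add]
      linarith [hwin k hk]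
    have h1 := alive_of_fam2 hF hA hD
    rw [add_zero] at h1
    obtain ⟨n, hn⟩ := base_mod k
    rw [← hn]
    exact Pool.Agent.W_4481e3_h1.Alive.add_int h1 n
  have halive4 : ∀ i ≥ i₀, Alive ε (2 ^ q / 15) (V (q + 4 * i) 0) := by
    intro i hi
    have h1 := halive0 (q + 4 * i) (by omega)
    have e : (q + 4 * i) % 4 = q := by omega
    rwa [e] at h1
  have hR := rfam_of_fam2 hF
  have haa : ∀ i n, aa (ε ^ 2) q (V (q + 4 * i) 0) (slope (ε ^ 2) b15 V a0 (q + 4 * i)) n =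
      slope (ε ^ 2) b15 V a0 (q + 4 * i + n) := by
    intro i n
    rw [← aa_shift (ε ^ 2) q i, aa_eq hF]
  have hsl : ∀ i ≥ i₀, ‖slope (ε ^ 2) b15 V a0 (q + 4 * i)‖ ≤ Af := fun i hi => hi₀' i (by omega)
  have hPi : ∀ i ≥ i₀, (∀ j < 4, ‖slope (ε ^ 2) b15 V a0 (q + 4 * i + j)‖ ≤ β j) ∧
      (∀ j, 1 ≤ j → j < 4 → compK (ε ^ 2) b15 V a0 (q + 4 * i) h (κ 0) j ≤ κ j) ∧
      compK (ε ^ 2) b15 V a0 (q + 4 * i) h (κ 0) 4 ≤ θ * κ 0 := by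
    intro i hi
    obtain ⟨p1, p2, p3⟩ := hP (V (q + 4 * i) 0) (slope (ε ^ 2) b15 V a0 (q + 4 * i)) (halive4 i hi)
      (hsl i hi) (by
        rw [haa, show q + 4 * i + 4 = q + 4 * (i + 1) by ring]
        exact hsl (i + 1) (by omega))
    refine ⟨fun j hj => ?_, fun j h1 h2 => ?_, ?_⟩
    · rw [← haa]; exact p1 j hj
    · rw [compK_eq_perK hF]; exact p2 j h1 h2
    · rw [compK_eq_perK hF]; exact p3
  obtain ⟨i₁, hRem⟩ := hR.boot_block (a0 := a0) (k₀ := q + 4 * i₀) (L := 4) (κ := κ 0)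
    (τ := 16 * h) (θ := θ) (by positivity) hκ (by norm_num) hθ0 hθ1
    (by linarith [hwin (q + 4 * i₀) le_rfl])
    (fun i => by
      have e1 : q + 4 * i₀ + 4 * i = q + 4 * (i₀ + i) := by ring
      have e2 : 16 * h / 2 ^ 4 = h := by norm_num
      rw [e1, e2]
      exact (hPi (i₀ + i) (by omega)).2.2)
    (by
      obtain ⟨B, hB⟩ := hc0
      refine ⟨2 * |B|, ρ, by positivity, hρ, fun s hs => ?_⟩
      have h1 := hB s hs
      have e1 : Rem (ε ^ 2) b15 V a0 0 s = V 0 s - V 0 0 - a0 * s := rfl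
      rw [e1]
      refine h1.trans ?_
      have h2 := le_abs_self B
      have h3 := sq_nonneg s
      nlinarith)
  have hRem0 : ∀ i ≥ i₀ + i₁, ∀ s, |s| ≤ 16 * h →
      ‖Rem (ε ^ 2) b15 V a0 (q + 4 * i) s‖ ≤ κ 0 * s ^ 2 / 2 := by
    intro i hi s hs
    obtain ⟨t, rfl⟩ := Nat.exists_eq_add_of_le (show i₀ ≤ i by omega)
    have := hRem t (by omega) s hs
    rwa [show q + 4 * i₀ + 4 * t = q + 4 * (i₀ + t) by ring] at this
  refine ⟨i₀ + i₁, fun i hi => ⟨hwin _ (by omega), halive4 i (by omega), hRem0 i hi,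
    (hPi i (by omega)).1, fun j hj0 hj s hs => ?_⟩⟩
  have h1 := hR.stepC (a0 := a0) (k := q + 4 * i) (B := κ 0) (h := h) hκ.le hh0.le
    (by linarith [hwin (q + 4 * i) (by omega)])
    (fun s hs => hRem0 i hi s (by linarith)) j s hs
  refine h1.trans ?_
  have h2 := (hPi i (by omega)).2.1 j hj0 hj
  have := mul_le_mul_of_nonneg_right h2 (sq_nonneg s)
  linarith

/-- **Kill.**  If, infinitely often, the centre at the phase `q` satisfies `P`, and every alive germ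
with `P` and slope at most `A` is killed by a test, then the slope exceeds `A` infinitely often. -/
theorem flat_hlo_of (hA : Adm ε) (hF : Fam2 ε ρ A K V) {q : ℕ} (hq : q < 4) {Af h θ : ℝ} {κ β : ℕ → ℝ}
    (hc0 : ∃ B, ∀ t : ℝ, |t| ≤ ρ → ‖V 0 t - V 0 0 - a0 * t‖ ≤ B * t ^ 2)
    (hh0 : 0 < h) (hθ0 : 0 ≤ θ) (hθ1 : θ < 1) (hκ : 0 < κ 0) (hP : PerQ ε q Af h θ κ β)
    {P : ℂ → Prop}
    (hfr : (∀ᶠ i in atTop, ‖slope (ε ^ 2) b15 V a0 (q + 4 * i)‖ ≤ Af) →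
      ∃ᶠ i in atTop, P (V (q + 4 * i) 0))
    (hkill : ∀ w a : ℂ, Alive ε (2 ^ q / 15) w → P w → ‖a‖ ≤ Af → TestDead ε q w a (κ 0) (16 * h)) :
    ∃ᶠ i in atTop, Af < ‖slope (ε ^ 2) b15 V a0 (q + 4 * i)‖ := by
  by_contra hcon
  rw [not_frequently] at hcon
  have hev : ∀ᶠ i in atTop, ‖slope (ε ^ 2) b15 V a0 (q + 4 * i)‖ ≤ Af :=
    hcon.mono fun i hi => not_lt.1 hi
  obtain ⟨i₁, hi₁⟩ := flat_rem hA hF hq hc0 hh0 hθ0 hθ1 hκ hP hev
  obtain ⟨i, hPi, hii, hsl⟩ := ((hfr hev).and_eventually ((eventually_ge_atTop i₁).and hev)).exists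
  obtain ⟨hwin, hal, hrem, -, -⟩ := hi₁ i hii
  obtain ⟨s, hs, hdead⟩ := hkill (V (q + 4 * i) 0) (slope (ε ^ 2) b15 V a0 (q + 4 * i)) hal hPi hsl
  have hD : Dm ρ (q + 4 * i) s := by
    unfold Dm; linarith
  have hal2 := alive_of_fam2 hF hA hD
  obtain ⟨n', hn'⟩ := base_int q i
  have hal3 : Alive ε (2 ^ q / 15 + s) (V (q + 4 * i) s) := by
    have := Pool.Agent.W_4481e3_h1.Alive.add_int hal2 n'
    rwa [add_right_comm, hn'] at this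
  refine hdead (V (q + 4 * i) s) ?_ hal3
  have e1 : V (q + 4 * i) s - (V (q + 4 * i) 0 + slope (ε ^ 2) b15 V a0 (q + 4 * i) * s) =
      Rem (ε ^ 2) b15 V a0 (q + 4 * i) s := by unfold Rem; ring
  rw [e1]
  exact hrem s hs

/-- A one sided family, Lipschitz at the centre uniformly in late times, whose centre comes
arbitrarily close to a fixed point `δ` at late times, comes uniformly close to it on a window. -/
theorem window_close' {ε δ : ℂ} (hδ : δ ^ 2 = ε ^ 2) (hδn : ‖δ‖ ≤ 1 / 32) {ρ L τ : ℝ}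
    {V : ℕ → ℝ → ℂ} (hρ : 0 < ρ)
    (hrec : ∀ (k : ℕ) (t : ℝ), |t| ≤ ρ * 2 ^ k → V (k + 1) (2 * t) =
      V k t + (cb k t : ℂ) * (ε ^ 2 - V k t ^ 2))
    (_hτ : 0 < τ) (hτρ : τ ≤ ρ) (hL : 0 ≤ L) {Q : ℕ → Prop}
    (hlip : ∀ (k : ℕ), Q k → ∀ (s : ℝ), |s| ≤ τ → ‖V k s - V k 0‖ ≤ L * |s|)
    (hc : ∀ η > (0:ℝ), ∃ k, Q k ∧ ‖V k 0 - δ‖ ≤ η) :
    ∀ R > (0:ℝ), ∃ k, ∀ t : ℝ, |t| ≤ τ → ‖V k t - δ‖ < R := by
  intro R hR
  set R' := min R (1 / 20) with hR'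
  have hR'0 : 0 < R' := lt_min hR (by norm_num)
  have hR'1 : R' ≤ R := min_le_left _ _
  have hR'2 : R' ≤ 1 / 20 := min_le_right _ _
  -- choose n
  obtain ⟨n, hn⟩ : ∃ n : ℕ, (9 / 16 : ℝ) ^ n * (L * τ) < R' / 4 := by
    have h1 : Tendsto (fun n : ℕ => (9 / 16 : ℝ) ^ n * (L * τ)) atTop (𝓝 0) := by
      have := (tendsto_pow_atTop_nhds_zero_of_lt_one (r := (9 / 16 : ℝ)) (by norm_num)
        (by norm_num)).mul_const (L * τ)
      simpa using this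
    exact ((h1.eventually (gt_mem_nhds (by positivity))).exists)
  obtain ⟨k, hQk, hk⟩ := hc (R' / 4 / (9 / 8 : ℝ) ^ n) (by positivity)
  refine ⟨k + n, fun t ht => lt_of_lt_of_le ?_ hR'1⟩
  -- the start
  have hsmall : ∀ i ≤ n, |t / 2 ^ (n - i)| ≤ τ := by
    intro i _
    rw [abs_div, abs_of_pos (show (0:ℝ) < 2 ^ (n - i) by positivity)]
    refine (div_le_self (abs_nonneg t) (one_le_pow₀ (by norm_num))).trans ht
  set d : ℝ := ‖V k (t / 2 ^ n) - δ‖ with hd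
  have hd1 : (9 / 8 : ℝ) ^ n * d ≤ R' / 2 := by
    have h1 : d ≤ ‖V k 0 - δ‖ + L * (τ / 2 ^ n) := by
      have h2 : V k (t / 2 ^ n) - δ = (V k 0 - δ) + (V k (t / 2 ^ n) - V k 0) := by ring
      rw [hd, h2]
      refine (norm_add_le _ _).trans (add_le_add le_rfl ?_)
      have h3 := hlip k hQk (t / 2 ^ n) (by simpa using hsmall 0 (Nat.zero_le _))
      refine h3.trans (mul_le_mul_of_nonneg_left ?_ hL)
      rw [abs_div, abs_of_pos (show (0:ℝ) < 2 ^ n by positivity)]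
      gcongr
    have h4 : (9 / 8 : ℝ) ^ n * (L * (τ / 2 ^ n)) = (9 / 16 : ℝ) ^ n * (L * τ) := by
      have : (9 / 16 : ℝ) ^ n = (9 / 8) ^ n / 2 ^ n := by
        rw [← div_pow]; norm_num
      rw [this]; ring
    have h5 : (9 / 8 : ℝ) ^ n * ‖V k 0 - δ‖ ≤ R' / 4 := by
      have := mul_le_mul_of_nonneg_left hk (show (0:ℝ) ≤ (9 / 8 : ℝ) ^ n by positivity)
      rwa [mul_div_cancel₀ _ (by positivity)] at this
    have h6 := mul_le_mul_of_nonneg_left h1 (show (0:ℝ) ≤ (9 / 8 : ℝ) ^ n by positivity)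
    rw [mul_add] at h6
    linarith
  have hd0 : 0 ≤ d := norm_nonneg _
  -- induction
  have key : ∀ i ≤ n, ‖V (k + i) (t / 2 ^ (n - i)) - δ‖ ≤ (9 / 8 : ℝ) ^ i * d := by
    intro i
    induction i with
    | zero => intro _; simp [hd]
    | succ i ih =>
      intro hi
      have h1 := ih (by omega)
      have hpow : (2:ℝ) ^ (n - i) = 2 * 2 ^ (n - (i + 1)) := by
        have : n - i = (n - (i + 1)) + 1 := by omega
        rw [this, pow_succ]; ring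
      have h2 : t / 2 ^ (n - (i + 1)) = 2 * (t / 2 ^ (n - i)) := by
        rw [hpow]; field_simp
      have h3 : |t / 2 ^ (n - i)| ≤ ρ * 2 ^ (k + i) := by
        refine (hsmall i (by omega)).trans (hτρ.trans ?_)
        exact le_mul_of_one_le_right hρ.le (one_le_pow₀ (by norm_num))
      have h4 := hrec (k + i) (t / 2 ^ (n - i)) h3
      rw [h2, show k + (i + 1) = k + i + 1 by ring, h4]
      set v := V (k + i) (t / 2 ^ (n - i)) with hv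
      set c := cb (k + i) (t / 2 ^ (n - i)) with hc'
      have h5 : v + (c : ℂ) * (ε ^ 2 - v ^ 2) - δ = (v - δ) * (1 - c * (v - δ + 2 * δ)) := by
        rw [← hδ]; ring
      rw [h5, norm_mul]
      have hsz : ‖v - δ‖ ≤ 1 / 40 := by
        refine h1.trans ?_
        have h6 : (9 / 8 : ℝ) ^ i ≤ (9 / 8) ^ n := pow_le_pow_right₀ (by norm_num) (by omega)
        have h7 := mul_le_mul_of_nonneg_right h6 hd0
        linarith
      have h8 : ‖1 - (c:ℂ) * (v - δ + 2 * δ)‖ ≤ 9 / 8 := by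
        refine (norm_sub_le _ _).trans ?_
        rw [norm_one, norm_mul, Complex.norm_real, Real.norm_eq_abs]
        have h9 : |c| ≤ 1 := cb_abs _ _
        have h10 : ‖v - δ + 2 * δ‖ ≤ 1 / 40 + 1 / 16 := by
          refine (norm_add_le _ _).trans (add_le_add hsz ?_)
          rw [norm_mul, Complex.norm_two]; linarith
        have h11 := mul_le_mul h9 h10 (norm_nonneg _) zero_le_one
        linarith
      calc ‖v - δ‖ * ‖1 - (c:ℂ) * (v - δ + 2 * δ)‖ ≤ ((9 / 8 : ℝ) ^ i * d) * (9 / 8) :=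
            mul_le_mul h1 h8 (norm_nonneg _) (by positivity)
        _ = (9 / 8 : ℝ) ^ (i + 1) * d := by rw [pow_succ]; ring
  have hfin := key n le_rfl
  simp only [Nat.sub_self, pow_zero, div_one] at hfin
  linarith

/-- **No stay in the corner**, version for families Lipschitz at the centre at late times. -/
theorem corner' {ε : ℂ} (hε0 : ε ≠ 0) (hε : ‖ε‖ ≤ 1 / 32) (hsec : |ε.im| ≤ ε.re) {ρ L τ : ℝ}
    {V : ℕ → ℝ → ℂ} (hρ : 0 < ρ)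
    (hrec : ∀ (k : ℕ) (t : ℝ), |t| ≤ ρ * 2 ^ k → V (k + 1) (2 * t) =
      V k t + (cb k t : ℂ) * (ε ^ 2 - V k t ^ 2))
    (hτ : 0 < τ) (hτρ : τ ≤ ρ) (hL : 0 ≤ L) (m1 : ℕ)
    (hlip : ∀ m ≥ m1, ∀ s : ℝ, |s| ≤ τ → ‖V (4 * m + 2) s - V (4 * m + 2) 0‖ ≤ L * |s|)
    (hnear : ∀ ℓ > (0:ℝ), ∃ R > (0:ℝ), ∀ (k : ℕ) (a : ℝ), -(ρ * 2 ^ k) ≤ a → a + ℓ ≤ ρ * 2 ^ k →
      (∃ t ∈ Set.Icc a (a + ℓ), R ≤ ‖V k t - ε‖) ∧ (∃ t ∈ Set.Icc a (a + ℓ), R ≤ ‖V k t + ε‖))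
    (m0 : ℕ) : ∃ m ≥ m0, 1 / 20 < ‖V (4 * m + 2) 0‖ := by
  by_contra hcon
  push Not at hcon
  have hw : ∀ k, V (k + 1) 0 = V k 0 + (cb k 0 : ℂ) * (ε ^ 2 - V k 0 ^ 2) := by
    intro k
    have := hrec k 0 (by rw [abs_zero]; positivity)
    rwa [mul_zero] at this
  obtain ⟨R, hR, hRn⟩ := hnear τ hτ
  have fin : ∀ k : ℕ, (∃ t, |t| ≤ τ ∧ R ≤ ‖V k t - ε‖) ∧ (∃ t, |t| ≤ τ ∧ R ≤ ‖V k t + ε‖) := by
    intro k
    have h2 : ρ ≤ ρ * 2 ^ k := le_mul_of_one_le_right hρ.le (one_le_pow₀ (by norm_num))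
    obtain ⟨⟨t, ht, h⟩, ⟨t', ht', h'⟩⟩ := hRn k 0 (by linarith) (by linarith)
    rw [zero_add] at ht ht'
    exact ⟨⟨t, by rw [abs_of_nonneg ht.1]; exact ht.2, h⟩,
      ⟨t', by rw [abs_of_nonneg ht'.1]; exact ht'.2, h'⟩⟩
  have hlip' : ∀ k : ℕ, (∃ m ≥ m1, k = 4 * m + 2) → ∀ s : ℝ, |s| ≤ τ → ‖V k s - V k 0‖ ≤ L * |s| := by
    rintro k ⟨m, hm, rfl⟩
    exact hlip m hm
  rcases seq_corner (w := fun k => V k 0) hε0 hε hsec hw hcon with h | h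
  · -- the constant leaf
    have hc : ∀ η > (0:ℝ), ∃ k, (∃ m ≥ m1, k = 4 * m + 2) ∧ ‖V k 0 - (-ε)‖ ≤ η := by
      intro η hη
      refine ⟨4 * (max m0 m1) + 2, ⟨_, le_max_right _ _, rfl⟩, ?_⟩
      have := h (max m0 m1) (le_max_left _ _)
      rw [this, sub_self, norm_zero]; exact hη.le
    obtain ⟨k, hk⟩ := window_close' (δ := -ε) (by ring) (by rwa [norm_neg]) hρ hrec hτ hτρ hL hlip'
      hc R hR
    obtain ⟨t, ht, h'⟩ := (fin k).2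
    have := hk t ht
    rw [sub_neg_eq_add] at this
    linarith
  · have hc : ∀ η > (0:ℝ), ∃ k, (∃ m ≥ m1, k = 4 * m + 2) ∧ ‖V k 0 - ε‖ ≤ η := by
      intro η hη
      have h2 := (Metric.tendsto_atTop.mp h) η hη
      obtain ⟨N, hN⟩ := h2
      refine ⟨4 * (max N m1) + 2, ⟨_, le_max_right _ _, rfl⟩, ?_⟩
      have := hN (max N m1) (le_max_left _ _)
      rw [dist_eq_norm] at this
      exact this.le
    obtain ⟨k, hk⟩ := window_close' (δ := ε) rfl hε hρ hrec hτ hτρ hL hlip' hc R hR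
    obtain ⟨t, ht, h'⟩ := (fin k).1
    linarith [hk t ht]

/-- **The corner is left infinitely often**: predicate of the flat certificate at the phase `1`. -/
theorem flat_corner (hA : Adm ε) (hF : Fam2 ε ρ A K V) {Af h θ : ℝ} {κ β : ℕ → ℝ}
    (hc0 : ∃ B, ∀ t : ℝ, |t| ≤ ρ → ‖V 0 t - V 0 0 - a0 * t‖ ≤ B * t ^ 2)
    (hh0 : 0 < h) (hθ0 : 0 ≤ θ) (hθ1 : θ < 1) (hκ : 0 < κ 0) (hP : PerQ ε 1 Af h θ κ β)
    (hev : ∀ᶠ i in atTop, ‖slope (ε ^ 2) b15 V a0 (1 + 4 * i)‖ ≤ Af) :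
    ∃ᶠ i in atTop, (‖ε ^ 2‖ ≤ 1 / 1024 → 1 / 21 < ‖V (1 + 4 * i) 0‖) := by
  by_cases he : ‖ε ^ 2‖ ≤ 1 / 1024
  swap
  · exact Eventually.frequently (Eventually.of_forall fun i h => absurd h he)
  have hρ := hF.pos
  obtain ⟨i₁, hi₁⟩ := flat_rem hA hF (by norm_num : 1 < 4) hc0 hh0 hθ0 hθ1 hκ hP hev
  have hε0 : ε ≠ 0 := by
    intro h
    have := hA.re
    rw [h] at this
    simp at this
  have hεn : ‖ε‖ ≤ 1 / 32 := by
    rw [norm_pow] at he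
    by_contra hcon
    push Not at hcon
    nlinarith [norm_nonneg ε]
  have hsec : |ε.im| ≤ ε.re := by
    rw [abs_of_nonneg hA.im]; exact hA.le
  have hrec : ∀ (k : ℕ) (t : ℝ), |t| ≤ ρ * 2 ^ k → V (k + 1) (2 * t) =
      V k t + (cb k t : ℂ) * (ε ^ 2 - V k t ^ 2) := hF.recur
  set τ := min (2 * h) ρ with hτ
  have hτ0 : 0 < τ := lt_min (by positivity) hρ
  have hτρ : τ ≤ ρ := min_le_right _ _
  have hτh : τ ≤ 2 * h := min_le_left _ _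
  set L := β 1 + κ 1 * τ / 2 with hL
  have hβ1 : 0 ≤ β 1 := (norm_nonneg _).trans ((hi₁ i₁ le_rfl).2.2.2.1 1 (by norm_num))
  have hκ1 : 0 ≤ κ 1 := by
    have h1 := (hi₁ i₁ le_rfl).2.2.2.2 1 le_rfl (by norm_num) (2 * h)
      (by rw [abs_of_pos (by positivity)]; norm_num)
    have h2 := (norm_nonneg _).trans h1
    by_contra hcon
    push Not at hcon
    have h3 : 0 < (2 * h) ^ 2 := by positivity
    nlinarith
  have hL0 : 0 ≤ L := by positivity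
  have hlip : ∀ m ≥ i₁, ∀ s : ℝ, |s| ≤ τ → ‖V (4 * m + 2) s - V (4 * m + 2) 0‖ ≤ L * |s| := by
    intro m hm s hs
    have e : 1 + 4 * m + 1 = 4 * m + 2 := by ring
    have h1 := (hi₁ m hm).2.2.2.1 1 (by norm_num)
    have h2 := (hi₁ m hm).2.2.2.2 1 le_rfl (by norm_num) s (by linarith)
    rw [e] at h1 h2
    have e1 : V (4 * m + 2) s - V (4 * m + 2) 0 =
        Rem (ε ^ 2) b15 V a0 (4 * m + 2) s + slope (ε ^ 2) b15 V a0 (4 * m + 2) * s := by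
      unfold Rem; ring
    rw [e1]
    refine (norm_add_le _ _).trans ?_
    rw [norm_mul, Complex.norm_real, Real.norm_eq_abs]
    have h3 := mul_le_mul_of_nonneg_right h1 (abs_nonneg s)
    have h4 : κ 1 * s ^ 2 / 2 ≤ κ 1 * τ / 2 * |s| := by
      rw [← sq_abs s]
      have h5 : κ 1 * |s| * |s| ≤ κ 1 * |s| * τ := mul_le_mul_of_nonneg_left hs (by positivity)
      nlinarith
    have h6 := h2.trans h4
    rw [hL]
    linarith
  rw [frequently_atTop]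
  intro n
  obtain ⟨m, hm, hm2⟩ := corner' hε0 hεn hsec hρ hrec hτ0 hτρ hL0 i₁ hlip hF.near n
  refine ⟨m, hm, fun _ => ?_⟩
  by_contra hcon
  push Not at hcon
  have hw := hrec (1 + 4 * m) 0 (by rw [abs_zero]; positivity)
  rw [mul_zero, show 1 + 4 * m + 1 = 4 * m + 2 by ring] at hw
  have hc : |cb (1 + 4 * m) 0| ≤ 6695 / 10000 := by
    rw [add_comm 1, cb_mod, cb1]
    have b1 := c1_bd
    rw [abs_le]
    constructor
    · linarith [b1.1]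
    · linarith [b1.2]
  rw [hw] at hm2
  set w := V (1 + 4 * m) 0 with hwd
  have h1 : ‖w + (cb (1 + 4 * m) 0 : ℂ) * (ε ^ 2 - w ^ 2)‖ ≤ ‖w‖ + 6695 / 10000 * (1 / 1024 + ‖w‖ ^ 2) := by
    refine (norm_add_le _ _).trans ?_
    rw [norm_mul, Complex.norm_real, Real.norm_eq_abs]
    have h2 : ‖ε ^ 2 - w ^ 2‖ ≤ 1 / 1024 + ‖w‖ ^ 2 := by
      refine (norm_sub_le _ _).trans ?_
      rw [norm_pow w]
      linarith
    have := mul_le_mul hc h2 (norm_nonneg _) (by norm_num)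
    linarith
  have h3 : ‖w‖ ^ 2 ≤ (1 / 21) ^ 2 := by
    have := norm_nonneg w
    nlinarith
  norm_num at h3
  linarith

/-- **Consumer of the flat certificate.** -/
theorem flat_hlo (hA : Adm ε) (hF : Fam2 ε ρ A K V) {Af h θ : ℝ} {κ β : ℕ → ℝ}
    (hc0 : ∃ B, ∀ t : ℝ, |t| ≤ ρ → ‖V 0 t - V 0 0 - a0 * t‖ ≤ B * t ^ 2)
    (hh0 : 0 < h) (hθ0 : 0 ≤ θ) (hθ1 : θ < 1) (hκ : 0 < κ 0) (hP : PerQ ε 1 Af h θ κ β)
    (hkill : ∀ w a : ℂ, Alive ε (2 / 15) w → (‖ε ^ 2‖ ≤ 1 / 1024 → 1 / 21 < ‖w‖) → ‖a‖ ≤ Af →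
      TestDead ε 1 w a (κ 0) (16 * h)) :
    ∃ᶠ i in atTop, Af < ‖slope (ε ^ 2) b15 V a0 (1 + 4 * i)‖ :=
  flat_hlo_of hA hF (by norm_num) hc0 hh0 hθ0 hθ1 hκ hP
    (P := fun w => ‖ε ^ 2‖ ≤ 1 / 1024 → 1 / 21 < ‖w‖)
    (flat_corner hA hF hc0 hh0 hθ0 hθ1 hκ hP)
    (fun w a hal hp ha => hkill w a (by rwa [pow_one] at hal) hp ha)

end Pool.Agent.W_4481e3_h41
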